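import Pool.Agent.V11212.Col.Spin

/-!
The bound: a skew system of pairs of binary words at distance at least `r + 1`, respectively at
most `r`, has at most `2 ^ (r + 1)` members.
-/

namespace Pool.Agent.V11212.Col

open Finset

/-- number of disagreements -/
def dd {ι : Type} [Fintype ι] (a b : ι → Bool) : ℕ := (univ.filter (fun k => a k ≠ b k)).card

theorem filter_toList {ι : Type} [Fintype ι] (p : ι → Bool) :
    ((univ : Finset ι).toList.filter p).length = (univ.filter (fun k => p k = true)).card := by
  classical
  rw [Finset.card_def, Finset.filter_val, ← Finset.coe_toList (s := (univ : Finset ι)),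
    Multiset.filter_coe, Multiset.coe_card]
  simp

theorem dis_eq_dd {ι : Type} [Fintype ι] (a b : ι → Bool) :
    dis a b (univ : Finset ι).toList = dd a b := by
  rw [dis, filter_toList, dd]
  congr 1
  ext k
  simp

theorem exists_pi {ι : Type} [Fintype ι] {M : ℕ} (hM : 1 ≤ M) (D : Finset ι)
    (h1 : M ≤ D.card) (h2 : D.card % 2 = M % 2) :
    ∃ π : ι → Fin M, ∀ j : Fin M, (D.filter (fun k => π k = j)).card % 2 = 1 := by
  classical
  obtain ⟨D', hD', hc⟩ := Finset.exists_subset_card_eq h1
  let e : D' ≃ Fin M := Fintype.equivFinOfCardEq (by simpa using hc)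
  refine ⟨fun k => if h : k ∈ D' then e ⟨k, h⟩ else ⟨0, hM⟩, fun j => ?_⟩
  have hsplit : D.filter (fun k => (if h : k ∈ D' then e ⟨k, h⟩ else ⟨0, hM⟩) = j) =
      {(e.symm j : ι)} ∪ (if j = ⟨0, hM⟩ then D \ D' else ∅) := by
    ext k
    simp only [Finset.mem_filter, Finset.mem_union, Finset.mem_singleton]
    constructor
    · rintro ⟨hk, hkj⟩
      by_cases h : k ∈ D'
      · left
        rw [dif_pos h] at hkj
        rw [← hkj]; simp
      · right
        rw [dif_neg h] at hkj
        rw [if_pos hkj.symm]
        exact Finset.mem_sdiff.2 ⟨hk, h⟩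
    · rintro (h | h)
      · subst h
        refine ⟨hD' (e.symm j).2, ?_⟩
        rw [dif_pos (e.symm j).2]; simp
      · by_cases hj : j = ⟨0, hM⟩
        · rw [if_pos hj] at h
          obtain ⟨hk, hk'⟩ := Finset.mem_sdiff.1 h
          refine ⟨hk, ?_⟩
          rw [dif_neg hk', hj]
        · rw [if_neg hj] at h; simp at h
  rw [hsplit, Finset.card_union_of_disjoint]
  · rw [Finset.card_singleton]
    split_ifs
    · have := Finset.card_sdiff_add_card_eq_card hD'
      omega
    · simp
  · rw [Finset.disjoint_singleton_left]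
    split_ifs
    · intro h
      exact (Finset.mem_sdiff.1 h).2 (e.symm j).2
    · simp

section main
variable {ι : Type} [Fintype ι] {M : ℕ}

/-- coefficient ring -/
abbrev Rg (ι : Type) (M : ℕ) : Type := MvPolynomial (ι × Fin M × Bool) (ZMod 2)

/-- generic vectors -/
noncomputable def gen (ι : Type) (M : ℕ) (k : ι) (j : Fin M) (b : Bool) : Rg ι M :=
  MvPolynomial.X (k, j, b)

theorem diag_ne {a b : ι → Bool} (hM : 1 ≤ M) (h1 : M ≤ dd a b) (h2 : dd a b % 2 = M % 2) :
    (opB (gen ι M) b (univ : Finset ι).toList * opA (gen ι M) a (univ : Finset ι).toList)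
      (vac : Sp M (Rg ι M)) univ ≠ 0 := by
  classical
  obtain ⟨π, hπ⟩ := exists_pi hM _ h1 h2
  intro h0
  let φ : Rg ι M →+* ZMod 2 :=
    (MvPolynomial.aeval (fun x : ι × Fin M × Bool => spec (ZMod 2) π x.1 x.2.1 x.2.2) :
      Rg ι M →ₐ[ZMod 2] ZMod 2).toRingHom
  have hφ : (fun k j b => φ (gen ι M k j b)) = spec (ZMod 2) π := by
    funext k j b
    simp [φ, gen]
  have h3 := congrArg φ h0
  rw [Module.End.mul_apply, opB_map, map_zero] at h3
  have key : (fun T => φ ((opA (gen ι M) a (univ : Finset ι).toList) (vac : Sp M (Rg ι M)) T)) =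
      (opA (spec (ZMod 2) π) a (univ : Finset ι).toList) (vac : Sp M (ZMod 2)) := by
    funext T
    rw [opA_map, hφ, vac_map]
  rw [key, hφ, ← Module.End.mul_apply, spec_eval] at h3
  have hfl : fl π a b (univ : Finset ι).toList univ = ∅ := by
    rw [Finset.eq_empty_iff_forall_notMem]
    intro j hj
    rw [mem_fl, filter_toList] at hj
    have e : (univ.filter (fun k => ((a k != b k) && decide (π k = j)) = true)) =
        ((univ.filter (fun k => a k ≠ b k)).filter (fun k => π k = j)) := by
      ext k; simp
    rw [e] at hj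
    exact (hj.1 (hπ j)) (Finset.mem_univ j)
  rw [hfl, vac, if_pos rfl] at h3
  exact one_ne_zero h3

theorem even_card (r : ℕ) :
    Fintype.card {S : Finset (Fin (r + 2)) // S.card % 2 = 0} ≤ 2 ^ (r + 1) := by
  classical
  have : Fintype.card (Finset (Fin (r + 1))) = 2 ^ (r + 1) := by simp
  rw [← this]
  refine Fintype.card_le_of_injective
    (fun S => univ.filter (fun j : Fin (r + 1) => j.succ ∈ S.1)) ?_
  rintro ⟨S, hS⟩ ⟨T, hT⟩ h
  simp only [Subtype.mk.injEq]
  have hs : ∀ j : Fin (r + 1), j.succ ∈ S ↔ j.succ ∈ T := by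
    intro j
    have := congrArg (fun x => j ∈ x) h
    simpa using this
  have hcard : ∀ U : Finset (Fin (r + 2)), U.card =
      (if (0 : Fin (r + 2)) ∈ U then 1 else 0) +
        (univ.filter (fun j : Fin (r + 1) => j.succ ∈ U)).card := by
    intro U
    have e : U = univ.filter (fun j => j ∈ U) := by ext; simp
    conv_lhs => rw [e, Finset.card_filter]
    rw [Fin.sum_univ_succ, Finset.card_filter]
  have h0 : (0 : Fin (r + 2)) ∈ S ↔ (0 : Fin (r + 2)) ∈ T := by
    have h1 := hcard S
    have h2 := hcard T
    have h3 : univ.filter (fun j : Fin (r + 1) => j.succ ∈ S) =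
      univ.filter (fun j : Fin (r + 1) => j.succ ∈ T) := h
    rw [h3] at h1
    by_cases a1 : (0 : Fin (r + 2)) ∈ S <;> by_cases a2 : (0 : Fin (r + 2)) ∈ T
    · simp [a1, a2]
    · rw [if_pos a1] at h1; rw [if_neg a2] at h2; omega
    · rw [if_neg a1] at h1; rw [if_pos a2] at h2; omega
    · simp [a1, a2]
  ext x
  refine Fin.cases h0 (fun j => hs j) x

theorem skew_even {m r : ℕ} (a b : Fin m → ι → Bool)
    (heven : ∀ i, (univ.filter (fun k => a i k = true)).card % 2 = 0)
    (hdiag : ∀ i, r + 2 ≤ dd (a i) (b i) ∧ dd (a i) (b i) % 2 = (r + 2) % 2)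
    (hoff : ∀ i j, i < j → dd (a i) (b j) < r + 2) : m ≤ 2 ^ (r + 1) := by
  classical
  let R := Rg ι (r + 2)
  let l := (univ : Finset ι).toList
  let α : Fin m → Sp (r + 2) R := fun i => opA (gen ι (r + 2)) (a i) l vac
  let E := {S : Finset (Fin (r + 2)) // S.card % 2 = 0}
  have hpar : ∀ i (S : Finset (Fin (r + 2))), S.card % 2 = 1 → α i S = 0 := by
    intro i S hS
    refine opA_parity (gen ι (r + 2)) (a i) l vac 0 (fun T hT => ?_) S ?_
    · rw [vac, if_neg]; rintro rfl; simp at hT
    · rw [filter_toList]
      have := heven i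
      omega
  have hli : LinearIndependent R (fun i => (fun S : E => α i S.1)) := by
    rw [Fintype.linearIndependent_iff]
    intro g hg
    have hg' : ∑ i, g i • α i = 0 := by
      funext S
      rcases Nat.mod_two_eq_zero_or_one S.card with h | h
      · have := congrFun hg ⟨S, h⟩
        simpa using this
      · rw [Finset.sum_apply]
        exact Finset.sum_eq_zero fun i _ => by rw [Pi.smul_apply, hpar i S h, smul_zero]
    intro j
    induction j using WellFoundedGT.induction with
    | _ j ih =>
    have h1 := congrArg (fun s => opB (gen ι (r + 2)) (b j) l s univ) hg'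
    simp only [map_sum, map_smul, map_zero, Finset.sum_apply, Pi.smul_apply, Pi.zero_apply] at h1
    rw [Finset.sum_eq_single j] at h1
    · have h2 := diag_ne (ι := ι) (a := a j) (b := b j) (by omega) (hdiag j).1 (hdiag j).2
      rw [smul_eq_mul] at h1
      rcases mul_eq_zero.1 h1 with h | h
      · exact h
      · exact absurd h h2
    · intro i _ hij
      rcases lt_or_gt_of_ne hij with h | h
      · have h3 : opB (gen ι (r + 2)) (b j) l (α i) univ = 0 := by
          have := top_zero (M := r + 2) (R := R) (hoff i j h)
            (by rw [← dis_eq_dd]; exact opBA_mem (gen ι (r + 2)) (a i) (b j) l)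
          exact this
        rw [h3, smul_zero]
      · rw [ih i h, zero_smul]
    · intro h; exact absurd (Finset.mem_univ j) h
  have h1 := hli.fintype_card_le_finrank
  rw [Fintype.card_fin, Module.finrank_fintype_fun_eq_card] at h1
  exact h1.trans (even_card r)

/-- parity bit of a word -/
def par (a : ι → Bool) : Bool := decide ((univ.filter (fun k => a k = true)).card % 2 = 1)

/-- the word with an additional bit -/
def ext (a : ι → Bool) (x : Bool) : Option ι → Bool
  | none => x
  | some k => a k

theorem card_option (p : Option ι → Bool) :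
    (univ.filter (fun k => p k = true)).card =
      (if p none then 1 else 0) + (univ.filter (fun k => p (some k) = true)).card := by
  rw [Finset.card_filter, Finset.card_filter, Fintype.sum_option]

theorem dd_ext (a b : ι → Bool) (x y : Bool) :
    dd (ext a x) (ext b y) = (if x ≠ y then 1 else 0) + dd a b := by
  rw [dd, dd, Finset.card_filter, Finset.card_filter, Fintype.sum_option]
  rfl

theorem dd_parity (a b : ι → Bool) :
    dd a b % 2 = ((univ.filter (fun k => a k = true)).card +
      (univ.filter (fun k => b k = true)).card) % 2 := by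
  have : dd a b + 2 * (univ.filter (fun k => (a k && b k) = true)).card =
      (univ.filter (fun k => a k = true)).card + (univ.filter (fun k => b k = true)).card := by
    rw [dd, Finset.card_filter, Finset.card_filter, Finset.card_filter, Finset.card_filter,
      Finset.mul_sum, ← Finset.sum_add_distrib, ← Finset.sum_add_distrib]
    refine Finset.sum_congr rfl fun k _ => ?_
    rcases a k with _ | _ <;> rcases b k with _ | _ <;> simp
  omega

/-- The skew bound. -/
theorem skew_bound {m r : ℕ} (a b : Fin m → ι → Bool)
    (hdiag : ∀ i, r + 1 ≤ dd (a i) (b i))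
    (hoff : ∀ i j, i < j → dd (a i) (b j) ≤ r) : m ≤ 2 ^ (r + 1) := by
  classical
  let a' : Fin m → Option ι → Bool := fun i => ext (a i) (par (a i))
  let b' : Fin m → Option ι → Bool := fun i => ext (b i) (xor (par (b i)) (decide (r % 2 = 1)))
  have hmod : ∀ i j, dd (a' i) (b' j) % 2 = r % 2 ∧ dd (a i) (b j) ≤ dd (a' i) (b' j) ∧
      dd (a' i) (b' j) ≤ dd (a i) (b j) + 1 := by
    intro i j
    have h1 := dd_parity (a i) (b j)
    have h2 : dd (a' i) (b' j) = _ := dd_ext (a i) (b j) (par (a i))
      (xor (par (b j)) (decide (r % 2 = 1)))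
    rw [h2]
    refine ⟨?_, by omega, by split_ifs <;> omega⟩
    rcases Nat.mod_two_eq_zero_or_one (univ.filter (fun k => a i k = true)).card with ha | ha <;>
    rcases Nat.mod_two_eq_zero_or_one (univ.filter (fun k => b j k = true)).card with hb | hb <;>
    rcases Nat.mod_two_eq_zero_or_one r with hr | hr <;>
    simp [par, ha, hb, hr] <;> omega
  refine skew_even a' b' (fun i => ?_) (fun i => ?_) (fun i j hij => ?_)
  · rw [card_option]
    simp only [a', ext, par, decide_eq_true_eq]
    split_ifs with h <;> omega
  · have h1 := hmod i i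
    have h2 := hdiag i
    omega
  · have h1 := hmod i j
    have h2 := hoff i j hij
    omega

/-- A skew system inside a clique has length at most `2 ^ r`. -/
theorem clique_skew_bound {t r : ℕ} (v w : Fin t → ι → Bool)
    (hclique : ∀ i j, dd (v i) (v j) ≤ r)
    (hdiag : ∀ i, r + 1 ≤ dd (v i) (w i))
    (hoff : ∀ i j, i < j → dd (v i) (w j) ≤ r) : t ≤ 2 ^ r := by
  have hsymm : ∀ a b : ι → Bool, dd a b = dd b a := by
    intro a b
    rw [dd, dd]; congr 1; ext k; simp [ne_comm]
  have key : t + t ≤ 2 ^ (r + 1) := by
    refine skew_bound (m := t + t) (Fin.append v (fun i => w i.rev))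
      (Fin.append w (fun i => v i.rev)) (fun i => ?_) (fun i j hij => ?_)
    · refine Fin.addCases (fun i => ?_) (fun i => ?_) i
      · simpa using hdiag i
      · rw [Fin.append_right, Fin.append_right, hsymm]; exact hdiag _
    · refine Fin.addCases (fun i hij => ?_) (fun i hij => ?_) i hij
      · refine Fin.addCases (fun j hij => ?_) (fun j hij => ?_) j hij
        · rw [Fin.append_left, Fin.append_left]
          exact hoff i j (by rw [Fin.lt_def] at hij ⊢; simpa using hij)
        · rw [Fin.append_left, Fin.append_right]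
          exact hclique _ _
      · refine Fin.addCases (fun j hij => ?_) (fun j hij => ?_) j hij
        · exfalso
          rw [Fin.lt_def] at hij
          simp at hij
          omega
        · rw [Fin.append_right, Fin.append_right, hsymm]
          refine hoff _ _ ?_
          rw [Fin.lt_def] at hij ⊢
          simp at hij
          simp only [Fin.val_rev]
          omega
  rw [pow_succ] at key
  omega

end main

end Pool.Agent.V11212.Col
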