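import Mathlib

/-!
Collapses of clique complexes.  Families of finite sets; `ElemCollapse` is the usual elementary
collapse.  The main result bounds the dimension after collapsing by the length of the longest
skew system of non-adjacent pairs.
-/

namespace Pool.Agent.V11212.Col

variable {V : Type} [DecidableEq V]

/-- One elementary collapse from `K` to `L`. -/
def ElemCollapse (K L : Set (Finset V)) : Prop :=
  ∃ s t : Finset V, s ∈ K ∧ t ∈ K ∧ s ⊂ t ∧ t.card = s.card + 1 ∧
    (∀ u ∈ K, s ⊂ u → u = t) ∧ L = K \ {s, t}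

/-- An elementary collapse whose free face has at least `d` elements. -/
def StepGE (d : ℕ) (K L : Set (Finset V)) : Prop :=
  ∃ s t : Finset V, d ≤ s.card ∧ s ∈ K ∧ t ∈ K ∧ s ⊂ t ∧ t.card = s.card + 1 ∧
    (∀ u ∈ K, s ⊂ u → u = t) ∧ L = K \ {s, t}

/-- `A ∪ (v * B)`. -/
def glue (v : V) (A B : Set (Finset V)) : Set (Finset V) := A ∪ (insert v) '' B

/-- no member of the family contains `v` -/
def Avoids (v : V) (A : Set (Finset V)) : Prop := ∀ s ∈ A, v ∉ s

theorem insert_inj {v : V} {s t : Finset V} (hs : v ∉ s) (ht : v ∉ t)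
    (h : insert v s = insert v t) : s = t := by
  have := congrArg (fun x => x.erase v) h
  simpa [Finset.erase_insert hs, Finset.erase_insert ht] using this

theorem step_link {v : V} {d : ℕ} {A K L : Set (Finset V)} (hA : Avoids v A) (hK : Avoids v K)
    (h : StepGE d K L) : StepGE (d + 1) (glue v A K) (glue v A L) := by
  obtain ⟨s, t, hd, hs, ht, hst, hc, hu, rfl⟩ := h
  have hvs := hK s hs
  have hvt := hK t ht
  refine ⟨insert v s, insert v t, ?_, Or.inr ⟨s, hs, rfl⟩, Or.inr ⟨t, ht, rfl⟩, ?_, ?_, ?_, ?_⟩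
  · rw [Finset.card_insert_of_notMem hvs]; omega
  · refine ⟨Finset.insert_subset_insert v hst.1, fun hh => hst.2 fun x hx => ?_⟩
    have hx' := hh (Finset.mem_insert_of_mem hx)
    rcases Finset.mem_insert.1 hx' with rfl | h'
    · exact absurd hx hvt
    · exact h'
  · rw [Finset.card_insert_of_notMem hvs, Finset.card_insert_of_notMem hvt, hc]
  · rintro u (huA | ⟨u', hu', rfl⟩) hsu
    · exact absurd (hsu.1 (Finset.mem_insert_self v s)) (hA u huA)
    · have hvu := hK u' hu'
      rw [hu u' hu' ⟨fun x hx => ?_, fun hh => hsu.2 (Finset.insert_subset_insert v hh)⟩]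
      have hx' := hsu.1 (Finset.mem_insert_of_mem hx)
      rcases Finset.mem_insert.1 hx' with rfl | h'
      · exact absurd hx hvs
      · exact h'
  · ext u
    constructor
    · rintro (huA | ⟨u', ⟨hu', hne⟩, rfl⟩)
      · refine ⟨Or.inl huA, ?_⟩
        rintro (rfl | rfl)
        · exact hA _ huA (Finset.mem_insert_self v s)
        · exact hA _ huA (Finset.mem_insert_self v t)
      · refine ⟨Or.inr ⟨u', hu', rfl⟩, ?_⟩
        have hvu := hK u' hu'
        rintro (h | h)
        · exact hne (Or.inl (insert_inj hvu hvs h))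
        · exact hne (Or.inr (insert_inj hvu hvt h))
    · rintro ⟨huA | ⟨u', hu', rfl⟩, hne⟩
      · exact Or.inl huA
      · refine Or.inr ⟨u', ⟨hu', ?_⟩, rfl⟩
        rintro (rfl | rfl)
        · exact hne (Or.inl rfl)
        · exact hne (Or.inr rfl)

theorem step_del {v : V} {d : ℕ} {A A' B : Set (Finset V)} (hA : Avoids v A)
    (hB : ∀ s ∈ B, s.card + 1 ≤ d)
    (h : StepGE d A A') : StepGE d (glue v A B) (glue v A' B) := by
  obtain ⟨s, t, hd, hs, ht, hst, hc, hu, rfl⟩ := h
  have hvs := hA s hs
  have hvt := hA t ht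
  refine ⟨s, t, hd, Or.inl hs, Or.inl ht, hst, hc, ?_, ?_⟩
  · rintro u (huA | ⟨u', hu', rfl⟩) hsu
    · exact hu u huA hsu
    · exfalso
      have : s ⊆ u' := by
        intro x hx
        rcases Finset.mem_insert.1 (hsu.1 hx) with rfl | h'
        · exact absurd hx hvs
        · exact h'
      have h1 := Finset.card_le_card this
      have h2 := hB u' hu'
      omega
  · ext u
    constructor
    · rintro (⟨huA, hne⟩ | ⟨u', hu', rfl⟩)
      · exact ⟨Or.inl huA, hne⟩
      · refine ⟨Or.inr ⟨u', hu', rfl⟩, ?_⟩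
        rintro (h | h)
        · exact hvs (h ▸ Finset.mem_insert_self v u')
        · exact hvt (h ▸ Finset.mem_insert_self v u')
    · rintro ⟨huA | h, hne⟩
      · exact Or.inl ⟨huA, hne⟩
      · exact Or.inr h

/-- Iterated version. -/
def StarGE (d : ℕ) (K L : Set (Finset V)) : Prop := Relation.ReflTransGen (StepGE d) K L

theorem step_subset {d : ℕ} {K L : Set (Finset V)} (h : StepGE d K L) : L ⊆ K := by
  obtain ⟨s, t, _, _, _, _, _, _, rfl⟩ := h
  exact Set.sdiff_subset

theorem star_subset {d : ℕ} {K L : Set (Finset V)} (h : StarGE d K L) : L ⊆ K := by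
  induction h with
  | refl => exact subset_rfl
  | tail _ h ih => exact (step_subset h).trans ih

theorem Avoids.mono {v : V} {A B : Set (Finset V)} (hA : Avoids v A) (h : B ⊆ A) : Avoids v B :=
  fun s hs => hA s (h hs)

theorem star_link {v : V} {d : ℕ} {A K L : Set (Finset V)} (hA : Avoids v A) (hK : Avoids v K)
    (h : StarGE d K L) : StarGE (d + 1) (glue v A K) (glue v A L) := by
  induction h with
  | refl => exact Relation.ReflTransGen.refl
  | tail h1 h2 ih => exact ih.tail (step_link hA (hK.mono (star_subset h1)) h2)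

theorem star_del {v : V} {d : ℕ} {A A' B : Set (Finset V)} (hA : Avoids v A)
    (hB : ∀ s ∈ B, s.card + 1 ≤ d)
    (h : StarGE d A A') : StarGE d (glue v A B) (glue v A' B) := by
  induction h with
  | refl => exact Relation.ReflTransGen.refl
  | tail h1 h2 ih => exact ih.tail (step_del (hA.mono (star_subset h1)) hB h2)

theorem glue_card {v : V} {d : ℕ} {A B : Set (Finset V)} (hA : ∀ s ∈ A, s.card ≤ d + 1)
    (hB : ∀ s ∈ B, s.card ≤ d) : ∀ s ∈ glue v A B, s.card ≤ d + 1 := by
  rintro s (hs | ⟨t, ht, rfl⟩)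
  · exact hA s hs
  · exact (Finset.card_insert_le _ _).trans (Nat.succ_le_succ (hB t ht))

/-- combine: link to level `d`, deletion to level `d+1` -/
theorem combine {v : V} {d : ℕ} {A A' K L : Set (Finset V)} (hA : Avoids v A) (hK : Avoids v K)
    (h1 : StarGE d K L) (hL : ∀ s ∈ L, s.card ≤ d)
    (h2 : StarGE (d + 1) A A') (hA' : ∀ s ∈ A', s.card ≤ d + 1) :
    StarGE (d + 1) (glue v A K) (glue v A' L) ∧ ∀ s ∈ glue v A' L, s.card ≤ d + 1 :=
  ⟨(star_link hA hK h1).trans (star_del hA (fun s hs => Nat.succ_le_succ (hL s hs)) h2),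
    glue_card hA' hL⟩

/-- The faces of the full simplex on `A` (the empty one included). -/
def full (A : Finset V) : Set (Finset V) := {s | s ⊆ A}

theorem full_glue {v : V} {A : Finset V} (hv : v ∈ A) :
    full A = glue v (full (A.erase v)) (full (A.erase v)) := by
  ext s
  constructor
  · intro hs
    by_cases h : v ∈ s
    · refine Or.inr ⟨s.erase v, Finset.erase_subset_erase v hs, Finset.insert_erase h⟩
    · exact Or.inl fun x hx => Finset.mem_erase.2 ⟨fun e => h (e ▸ hx), hs hx⟩
  · rintro (hs | ⟨t, ht, rfl⟩)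
    · exact fun x hx => Finset.mem_of_mem_erase (hs hx)
    · intro x hx
      rcases Finset.mem_insert.1 hx with rfl | h'
      · exact hv
      · exact Finset.mem_of_mem_erase (ht h')

theorem full_avoids {v : V} {A : Finset V} : Avoids v (full (A.erase v)) :=
  fun _ hs hv => Finset.notMem_erase v A (hs hv)

theorem full_void (k : ℕ) : ∀ A : Finset V, A.card = k + 1 → StarGE 0 (full A) ∅ := by
  induction k with
  | zero =>
    intro A hA
    obtain ⟨v, rfl⟩ := Finset.card_eq_one.1 hA
    refine Relation.ReflTransGen.single ⟨∅, {v}, Nat.zero_le _, ?_, ?_, ?_, ?_, ?_, ?_⟩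
    · exact Finset.empty_subset _
    · exact Finset.Subset.refl {v}
    · exact ⟨Finset.empty_subset _, fun h => by simpa using h (Finset.mem_singleton_self v)⟩
    · simp
    · intro u hu hh
      rcases Finset.subset_singleton_iff.1 hu with rfl | rfl
      · exact absurd hh (by simp)
      · rfl
    · ext u
      constructor
      · intro h; exact absurd h (by simp)
      · rintro ⟨h, hne⟩
        rcases Finset.subset_singleton_iff.1 h with rfl | rfl
        · exact absurd (Or.inl rfl) hne
        · exact absurd (Or.inr rfl) hne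
  | succ k ih =>
    intro A hA
    obtain ⟨v, hv⟩ := Finset.card_pos.1 (by omega : 0 < A.card)
    have hc : (A.erase v).card = k + 1 := by rw [Finset.card_erase_of_mem hv]; omega
    have h1 := ih _ hc
    have h2 := star_link (v := v) (A := full (A.erase v)) full_avoids full_avoids h1
    have h3 : StarGE 0 (full A) (glue v (full (A.erase v)) ∅) := by
      rw [full_glue hv]
      refine Relation.ReflTransGen.mono ?_ _ _ h2
      rintro K L ⟨s, t, _, h⟩
      exact ⟨s, t, Nat.zero_le _, h⟩
    have h4 : glue v (full (A.erase v)) ∅ = full (A.erase v) := by simp [glue]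
    rw [h4] at h3
    exact h3.trans h1

theorem full_collapse (n : ℕ) : ∀ (A : Finset V), A.card = n → ∀ d : ℕ,
    ∃ L : Set (Finset V), StarGE d (full A) L ∧ ∀ s ∈ L, s.card ≤ d := by
  induction n with
  | zero =>
    intro A hA d
    refine ⟨full A, Relation.ReflTransGen.refl, fun s hs => ?_⟩
    have := Finset.card_le_card (show s ⊆ A from hs)
    omega
  | succ n ih =>
    intro A hA d
    rcases d with _ | d
    · exact ⟨∅, full_void n A hA, fun s hs => absurd hs (by simp)⟩
    · obtain ⟨v, hv⟩ := Finset.card_pos.1 (by omega : 0 < A.card)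
      have hc : (A.erase v).card = n := by rw [Finset.card_erase_of_mem hv]; omega
      obtain ⟨L, hL, hL'⟩ := ih _ hc d
      obtain ⟨L2, hL2, hL2'⟩ := ih _ hc (d + 1)
      have := combine (v := v) full_avoids full_avoids hL hL' hL2 hL2'
      rw [← full_glue hv] at this
      exact ⟨_, this⟩

/-- Faces of the clique complex on the vertex set `A` (the empty one included). -/
def cl (G : SimpleGraph V) (A : Finset V) : Set (Finset V) := {s | s ⊆ A ∧ G.IsClique s}

/-- A skew system of length `t` inside `A`. -/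
structure Skew (G : SimpleGraph V) (A : Finset V) (t : ℕ) where
  v : Fin t → V
  w : Fin t → V
  hv : ∀ i, v i ∈ A
  hw : ∀ i, w i ∈ A
  clique : ∀ i j, i < j → G.Adj (v i) (v j)
  ne : ∀ i, v i ≠ w i
  nadj : ∀ i, ¬ G.Adj (v i) (w i)
  adj : ∀ i j, i < j → G.Adj (v i) (w j)

/-- enlarge the vertex set -/
def Skew.mono {G : SimpleGraph V} {A B : Finset V} {t : ℕ} (S : Skew G A t) (h : A ⊆ B) :
    Skew G B t where
  v := S.v
  w := S.w
  hv i := h (S.hv i)
  hw i := h (S.hw i)
  clique := S.clique
  ne := S.ne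
  nadj := S.nadj
  adj := S.adj

/-- prepend a pair -/
def Skew.cons {G : SimpleGraph V} {A B : Finset V} {t : ℕ} (S : Skew G A t) (h : A ⊆ B)
    (x y : V) (hx : x ∈ B) (hy : y ∈ B) (hne : x ≠ y) (hxy : ¬ G.Adj x y)
    (hA : ∀ z ∈ A, G.Adj x z) : Skew G B (t + 1) where
  v := Fin.cons x S.v
  w := Fin.cons y S.w
  hv i := by
    refine Fin.cases ?_ (fun i => ?_) i
    · simpa using hx
    · simpa using h (S.hv i)
  hw i := by
    refine Fin.cases ?_ (fun i => ?_) i
    · simpa using hy
    · simpa using h (S.hw i)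
  clique i j hij := by
    refine Fin.cases (fun j hij => ?_) (fun i j hij => ?_) i j hij
    · refine Fin.cases (fun h => absurd h (lt_irrefl _)) (fun j _ => ?_) j hij
      simpa using hA _ (S.hv j)
    · refine Fin.cases (fun h => absurd h (by simp)) (fun j hij => ?_) j hij
      simpa using S.clique i j (by simpa using hij)
  ne i := by
    refine Fin.cases ?_ (fun i => ?_) i
    · simpa using hne
    · simpa using S.ne i
  nadj i := by
    refine Fin.cases ?_ (fun i => ?_) i
    · simpa using hxy
    · simpa using S.nadj i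
  adj i j hij := by
    refine Fin.cases (fun j hij => ?_) (fun i j hij => ?_) i j hij
    · refine Fin.cases (fun h => absurd h (lt_irrefl _)) (fun j _ => ?_) j hij
      simpa using hA _ (S.hw j)
    · refine Fin.cases (fun h => absurd h (by simp)) (fun j hij => ?_) j hij
      simpa using S.adj i j (by simpa using hij)

theorem cl_glue (G : SimpleGraph V) [DecidableRel G.Adj] {v : V} {A : Finset V} (hv : v ∈ A) :
    cl G A = glue v (cl G (A.erase v)) (cl G (A.filter (fun x => G.Adj v x))) := by
  ext s
  constructor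
  · rintro ⟨hs, hc⟩
    by_cases h : v ∈ s
    · refine Or.inr ⟨s.erase v, ⟨fun x hx => ?_, ?_⟩, Finset.insert_erase h⟩
      · refine Finset.mem_filter.2 ⟨hs (Finset.mem_of_mem_erase hx), ?_⟩
        exact hc h (Finset.mem_of_mem_erase hx) (Finset.ne_of_mem_erase hx).symm
      · exact hc.subset (by simp)
    · exact Or.inl ⟨fun x hx => Finset.mem_erase.2 ⟨fun e => h (e ▸ hx), hs hx⟩, hc⟩
  · rintro (⟨hs, hc⟩ | ⟨t, ⟨ht, hc⟩, rfl⟩)
    · exact ⟨fun x hx => Finset.mem_of_mem_erase (hs hx), hc⟩
    · refine ⟨fun x hx => ?_, ?_⟩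
      · rcases Finset.mem_insert.1 hx with rfl | h'
        · exact hv
        · exact (Finset.mem_filter.1 (ht h')).1
      · rw [Finset.coe_insert]
        refine hc.insert fun b hb _ => (Finset.mem_filter.1 (ht hb)).2

theorem cl_collapse (G : SimpleGraph V) [DecidableRel G.Adj] (n : ℕ) :
    ∀ (A : Finset V), A.card = n → ∀ d : ℕ, (∀ t, Skew G A t → t ≤ d) →
      ∃ L : Set (Finset V), StarGE d (cl G A) L ∧ ∀ s ∈ L, s.card ≤ d := by
  induction n using Nat.strong_induction_on with
  | _ n ih =>
  intro A hA d hd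
  by_cases hcomp : ∀ x ∈ A, ∀ y ∈ A, x ≠ y → G.Adj x y
  · have : cl G A = full A := by
      ext s
      exact ⟨fun h => h.1, fun h => ⟨h, fun x hx y hy hxy => hcomp x (h hx) y (h hy) hxy⟩⟩
    rw [this]
    exact full_collapse n A hA d
  · push Not at hcomp
    obtain ⟨v, hv, w, hw, hne, hadj⟩ := hcomp
    have hsub : A.filter (fun x => G.Adj v x) ⊆ A := Finset.filter_subset _ _
    have hvn : v ∉ A.filter (fun x => G.Adj v x) := by simp
    have hcard : (A.filter (fun x => G.Adj v x)).card < n := by
      rw [← hA]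
      exact Finset.card_lt_card ⟨hsub, fun h => hvn (h hv)⟩
    have hcard2 : (A.erase v).card < n := by
      rw [← hA]
      exact Finset.card_erase_lt_of_mem hv
    rcases d with _ | d
    · exfalso
      have S0 : Skew G (∅ : Finset V) 0 :=
        ⟨Fin.elim0, Fin.elim0, fun i => i.elim0, fun i => i.elim0, fun i => i.elim0,
          fun i => i.elim0, fun i => i.elim0, fun i => i.elim0⟩
      have := hd 1 (S0.cons (Finset.empty_subset A) v w hv hw hne hadj (by simp))
      omega
    · obtain ⟨L, hL, hL'⟩ := ih _ hcard _ rfl d (fun t S => by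
        have := hd (t + 1) (S.cons hsub v w hv hw hne hadj
          (fun z hz => (Finset.mem_filter.1 hz).2))
        omega)
      obtain ⟨L2, hL2, hL2'⟩ := ih _ hcard2 _ rfl (d + 1) (fun t S =>
        hd t (S.mono (Finset.erase_subset v A)))
      have hav1 : Avoids v (cl G (A.erase v)) := fun s hs h => Finset.notMem_erase v A (hs.1 h)
      have hav2 : Avoids v (cl G (A.filter (fun x => G.Adj v x))) := fun s hs h => hvn (hs.1 h)
      have := combine (v := v) hav1 hav2 hL hL' hL2 hL2'
      rw [← cl_glue G hv] at this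
      exact ⟨_, this⟩

/-- Removing the empty face. -/
theorem star_nonempty {d : ℕ} (hd : 1 ≤ d) {K L : Set (Finset V)} (h : StarGE d K L) :
    Relation.ReflTransGen ElemCollapse (K \ {∅}) (L \ {∅}) := by
  induction h with
  | refl => exact Relation.ReflTransGen.refl
  | tail h1 h2 ih =>
    refine ih.tail ?_
    obtain ⟨s, t, hd', hs, ht, hst, hc, hu, rfl⟩ := h2
    have hs0 : s ≠ ∅ := by rintro rfl; simp at hd'; omega
    have ht0 : t ≠ ∅ := by rintro rfl; simp at hc
    refine ⟨s, t, ⟨hs, hs0⟩, ⟨ht, ht0⟩, hst, hc, fun u hu' => hu u hu'.1, ?_⟩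
    rw [Set.sdiff_sdiff_comm]

end Pool.Agent.V11212.Col
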