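import Mathlib

/-!
A skew Bollobas type bound for the Hamming distance, by a half spin representation in
characteristic two.
-/

namespace Pool.Agent.V11212.Col

open Finset

section ops
variable {M : ℕ} {R : Type} [CommRing R]

/-- the module -/
abbrev Sp (M : ℕ) (R : Type) : Type := Finset (Fin M) → R

/-- flip one element -/
def flip (S : Finset (Fin M)) (j : Fin M) : Finset (Fin M) := symmDiff S {j}

theorem flip_flip (S : Finset (Fin M)) (j : Fin M) : flip (flip S j) j = S := by
  simp [flip]

theorem flip_comm (S : Finset (Fin M)) (j l : Fin M) :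
    flip (flip S j) l = flip (flip S l) j := by
  simp [flip, symmDiff_right_comm]

theorem mem_flip_ne (S : Finset (Fin M)) {j l : Fin M} (h : l ≠ j) : l ∈ flip S j ↔ l ∈ S := by
  simp [flip, Finset.mem_symmDiff, h]

theorem mem_flip_self (S : Finset (Fin M)) (j : Fin M) : j ∈ flip S j ↔ j ∉ S := by
  simp [flip, Finset.mem_symmDiff]

/-- The Clifford action of the vector with coordinates `c`. -/
def cliff (c : Fin M → Bool → R) : Module.End R (Sp M R) where
  toFun f S := ∑ j, c j (decide (j ∈ S)) * f (flip S j)
  map_add' f g := by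
    funext S
    simp [mul_add, Finset.sum_add_distrib]
  map_smul' a f := by
    funext S
    simp only [Pi.smul_apply, smul_eq_mul, RingHom.id_apply, Finset.mul_sum]
    exact Finset.sum_congr rfl fun j _ => by ring

theorem cliff_apply (c : Fin M → Bool → R) (f : Sp M R) (S : Finset (Fin M)) :
    cliff c f S = ∑ j, c j (decide (j ∈ S)) * f (flip S j) := rfl

/-- the bilinear form -/
def bil (c d : Fin M → Bool → R) : R := ∑ j, (c j true * d j false + c j false * d j true)

/-- the quadratic form -/
def qf (c : Fin M → Bool → R) : R := ∑ j, c j true * c j false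

theorem cliff_mul (c d : Fin M → Bool → R) (f : Sp M R) (S : Finset (Fin M)) :
    (cliff c * cliff d) f S =
      ∑ j, ∑ l, c j (decide (j ∈ S)) * (d l (decide (l ∈ flip S j)) * f (flip (flip S j) l)) := by
  rw [Module.End.mul_apply, cliff_apply]
  refine Finset.sum_congr rfl fun j _ => ?_
  rw [cliff_apply, Finset.mul_sum]

theorem cliff_anti [CharP R 2] (c d : Fin M → Bool → R) :
    cliff c * cliff d + cliff d * cliff c = bil c d • (1 : Module.End R (Sp M R)) := by
  refine LinearMap.ext fun f => funext fun S => ?_
  rw [LinearMap.add_apply, Pi.add_apply, cliff_mul, cliff_mul]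
  conv_lhs => rw [Finset.sum_comm (s := univ) (t := univ)]
  rw [← Finset.sum_add_distrib]
  have hR : ∀ x : R, x + x = 0 := fun x => CharTwo.add_self_eq_zero x
  rw [LinearMap.smul_apply, Module.End.one_apply, Pi.smul_apply, smul_eq_mul, bil,
    Finset.sum_mul]
  refine Finset.sum_congr rfl fun l _ => ?_
  rw [← Finset.sum_add_distrib]
  rw [Finset.sum_eq_single l]
  · rw [flip_flip]
    by_cases h : l ∈ S
    · have h' : l ∉ flip S l := by rw [mem_flip_self]; simpa using h
      simp only [h, h', decide_true, decide_false]
      ring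
    · have h' : l ∈ flip S l := by rw [mem_flip_self]; simpa using h
      simp only [h, h', decide_true, decide_false]
      ring
  · intro j _ hj
    have h1 : decide (l ∈ flip S j) = decide (l ∈ S) := by
      rw [decide_eq_decide]; exact mem_flip_ne S hj.symm
    have h2 : decide (j ∈ flip S l) = decide (j ∈ S) := by
      rw [decide_eq_decide]; exact mem_flip_ne S hj
    rw [h1, h2, flip_comm S l j, ← hR (c j (decide (j ∈ S)) * (d l (decide (l ∈ S)) *
      f (flip (flip S j) l)))]
    ring
  · intro h; exact absurd (Finset.mem_univ l) h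

theorem cliff_sq [CharP R 2] (c : Fin M → Bool → R) :
    cliff c * cliff c = qf c • (1 : Module.End R (Sp M R)) := by
  refine LinearMap.ext fun f => funext fun S => ?_
  rw [cliff_mul, LinearMap.smul_apply, Module.End.one_apply, Pi.smul_apply, smul_eq_mul]
  have hR : ∀ x : R, x + x = 0 := fun x => CharTwo.add_self_eq_zero x
  rw [← Finset.sum_product', ← Finset.sum_filter_add_sum_filter_not _ (fun p => p.1 = p.2)]
  have h1 : ∑ x ∈ (univ ×ˢ univ : Finset (Fin M × Fin M)).filter (fun p => p.1 = p.2),
      c x.1 (decide (x.1 ∈ S)) * (c x.2 (decide (x.2 ∈ flip S x.1)) * f (flip (flip S x.1) x.2))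
      = qf c * f S := by
    rw [qf, Finset.sum_mul]
    refine Finset.sum_nbij' (fun x => x.1) (fun j => (j, j)) ?_ ?_ ?_ ?_ ?_
    · intro x _; exact mem_univ _
    · intro j _; simp
    · rintro ⟨a, b⟩ h; simp at h; simp [h]
    · intro j _; rfl
    · rintro ⟨a, b⟩ h
      simp at h
      subst h
      simp only
      rw [flip_flip]
      by_cases h : a ∈ S
      · have h' : a ∉ flip S a := by rw [mem_flip_self]; simpa using h
        simp only [h, h', decide_true, decide_false]
        ring
      · have h' : a ∈ flip S a := by rw [mem_flip_self]; simpa using h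
        simp only [h, h', decide_true, decide_false]
        ring
  have h2 : ∑ x ∈ (univ ×ˢ univ : Finset (Fin M × Fin M)).filter (fun p => ¬ p.1 = p.2),
      c x.1 (decide (x.1 ∈ S)) * (c x.2 (decide (x.2 ∈ flip S x.1)) * f (flip (flip S x.1) x.2))
      = 0 := by
    refine Finset.sum_involution (fun x _ => (x.2, x.1)) ?_ ?_ ?_ ?_
    · rintro ⟨a, b⟩ h
      have hab : a ≠ b := by simpa using h
      have h1 : decide (b ∈ flip S a) = decide (b ∈ S) := by
        rw [decide_eq_decide]; exact mem_flip_ne S hab.symm
      have h2 : decide (a ∈ flip S b) = decide (a ∈ S) := by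
        rw [decide_eq_decide]; exact mem_flip_ne S hab
      simp only
      rw [h1, h2, flip_comm S b a, ← hR (c a (decide (a ∈ S)) * (c b (decide (b ∈ S)) *
        f (flip (flip S a) b)))]
      ring
    · rintro ⟨a, b⟩ h _ heq
      have hab : a ≠ b := by simpa using h
      exact hab (by simpa using (congrArg Prod.snd heq))
    · rintro ⟨a, b⟩ h
      have hab : a ≠ b := by simpa using h
      simpa using hab.symm
    · rintro ⟨a, b⟩ h; rfl
  rw [h1, h2, add_zero]

/-- The filtration of the endomorphisms. -/
def Fil (M : ℕ) (R : Type) [CommRing R] : ℕ → Submodule R (Module.End R (Sp M R))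
  | 0 => Submodule.span R {1}
  | l + 1 => Fil M R l ⊔ Submodule.span R {X | ∃ c : Fin M → Bool → R, ∃ Y ∈ Fil M R l, X = cliff c * Y}

theorem Fil_succ (l : ℕ) : Fil M R l ≤ Fil M R (l + 1) := le_sup_left

theorem Fil_mono {l k : ℕ} (h : l ≤ k) : Fil M R l ≤ Fil M R k := by
  induction h with
  | refl => exact le_rfl
  | step _ ih => exact ih.trans (Fil_succ _)

theorem cliff_mul_mem {l : ℕ} (c : Fin M → Bool → R) {Y : Module.End R (Sp M R)}
    (hY : Y ∈ Fil M R l) : cliff c * Y ∈ Fil M R (l + 1) :=
  (le_sup_right : _ ≤ Fil M R (l + 1)) (Submodule.subset_span ⟨c, Y, hY, rfl⟩)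

theorem one_mem_Fil (l : ℕ) : (1 : Module.End R (Sp M R)) ∈ Fil M R l :=
  Fil_mono (Nat.zero_le l) (Submodule.subset_span rfl)

/-- induction principle for the filtration -/
theorem Fil_induct {l : ℕ} {p : Module.End R (Sp M R) → Prop}
    (h0 : ∀ Y ∈ Fil M R l, p Y) (h1 : ∀ (c : Fin M → Bool → R), ∀ Y ∈ Fil M R l, p (cliff c * Y))
    (hadd : ∀ X Y, p X → p Y → p (X + Y)) (hsmul : ∀ (a : R) X, p X → p (a • X))
    {X : Module.End R (Sp M R)} (hX : X ∈ Fil M R (l + 1)) : p X := by
  obtain ⟨Y, hY, Z, hZ, rfl⟩ := Submodule.mem_sup.1 hX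
  refine hadd _ _ (h0 Y hY) ?_
  refine Submodule.span_induction ?_ ?_ ?_ ?_ hZ
  · rintro _ ⟨c, Y, hY, rfl⟩; exact h1 c Y hY
  · have := h0 0 (zero_mem _); exact this
  · intro x y _ _ hx hy; exact hadd x y hx hy
  · intro a x _ hx; exact hsmul a x hx

theorem comm_zero [CharP R 2] {X : Module.End R (Sp M R)} (hX : X ∈ Fil M R 0)
    (d : Fin M → Bool → R) : X * cliff d + cliff d * X = 0 := by
  obtain ⟨a, rfl⟩ := Submodule.mem_span_singleton.1 hX
  have hR : ∀ x : R, x + x = 0 := fun x => CharTwo.add_self_eq_zero x
  rw [smul_mul_assoc, one_mul, mul_smul_comm, mul_one, ← add_smul, hR, zero_smul]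

theorem comm_mem [CharP R 2] (l : ℕ) : ∀ {X : Module.End R (Sp M R)}, X ∈ Fil M R (l + 1) →
    ∀ d : Fin M → Bool → R, X * cliff d + cliff d * X ∈ Fil M R l := by
  induction l with
  | zero =>
    intro X hX d
    refine Fil_induct (p := fun X => X * cliff d + cliff d * X ∈ Fil M R 0) ?_ ?_ ?_ ?_ hX
    · intro Y hY; rw [comm_zero hY]; exact zero_mem _
    · intro c Y hY
      have e : cliff c * Y * cliff d + cliff d * (cliff c * Y) =
          cliff c * (Y * cliff d + cliff d * Y) +
            (cliff c * cliff d + cliff d * cliff c) * Y - (2 : ℕ) • (cliff c * cliff d * Y) := by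
        noncomm_ring
      have e2 : (2 : ℕ) • (cliff c * cliff d * Y) = 0 := by
        rw [← Nat.cast_smul_eq_nsmul R, CharP.cast_eq_zero R 2, zero_smul]
      rw [e, e2, sub_zero, comm_zero hY, mul_zero, zero_add, cliff_anti, smul_mul_assoc, one_mul]
      exact Submodule.smul_mem _ _ hY
    · intro X Y hX hY
      have : (X + Y) * cliff d + cliff d * (X + Y) =
        (X * cliff d + cliff d * X) + (Y * cliff d + cliff d * Y) := by noncomm_ring
      rw [this]; exact add_mem hX hY
    · intro a X hX
      have : (a • X) * cliff d + cliff d * (a • X) = a • (X * cliff d + cliff d * X) := by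
        rw [smul_mul_assoc, mul_smul_comm, smul_add]
      rw [this]; exact Submodule.smul_mem _ _ hX
  | succ l ih =>
    intro X hX d
    refine Fil_induct (p := fun X => X * cliff d + cliff d * X ∈ Fil M R (l + 1)) ?_ ?_ ?_ ?_ hX
    · intro Y hY; exact Fil_succ _ (ih hY d)
    · intro c Y hY
      have e : cliff c * Y * cliff d + cliff d * (cliff c * Y) =
          cliff c * (Y * cliff d + cliff d * Y) +
            (cliff c * cliff d + cliff d * cliff c) * Y - (2 : ℕ) • (cliff c * cliff d * Y) := by
        noncomm_ring
      have e2 : (2 : ℕ) • (cliff c * cliff d * Y) = 0 := by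
        rw [← Nat.cast_smul_eq_nsmul R, CharP.cast_eq_zero R 2, zero_smul]
      rw [e, e2, sub_zero, cliff_anti, smul_mul_assoc, one_mul]
      exact add_mem (cliff_mul_mem c (ih hY d)) (Submodule.smul_mem _ _ hY)
    · intro X Y hX hY
      have : (X + Y) * cliff d + cliff d * (X + Y) =
        (X * cliff d + cliff d * X) + (Y * cliff d + cliff d * Y) := by noncomm_ring
      rw [this]; exact add_mem hX hY
    · intro a X hX
      have : (a • X) * cliff d + cliff d * (a • X) = a • (X * cliff d + cliff d * X) := by
        rw [smul_mul_assoc, mul_smul_comm, smul_add]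
      rw [this]; exact Submodule.smul_mem _ _ hX

theorem mul_cliff_mem [CharP R 2] {l : ℕ} (d : Fin M → Bool → R) {X : Module.End R (Sp M R)}
    (hX : X ∈ Fil M R l) : X * cliff d ∈ Fil M R (l + 1) := by
  have e : X * cliff d = (X * cliff d + cliff d * X) - cliff d * X := by noncomm_ring
  rw [e]
  refine sub_mem ?_ (cliff_mul_mem d hX)
  rcases l with _ | l
  · rw [comm_zero hX]; exact zero_mem _
  · exact Fil_mono (by omega) (comm_mem l hX d)

theorem conj_mem [CharP R 2] {l : ℕ} (d : Fin M → Bool → R) {X : Module.End R (Sp M R)}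
    (hX : X ∈ Fil M R l) : cliff d * X * cliff d ∈ Fil M R l := by
  have e : cliff d * X * cliff d = cliff d * (X * cliff d + cliff d * X)
      - (cliff d * cliff d) * X := by noncomm_ring
  rw [e]
  refine sub_mem ?_ ?_
  · rcases l with _ | l
    · rw [comm_zero hX, mul_zero]; exact zero_mem _
    · exact cliff_mul_mem d (comm_mem l hX d)
  · rw [cliff_sq, smul_mul_assoc, one_mul]; exact Submodule.smul_mem _ _ hX

/-- the vacuum vector -/
def vac : Sp M R := fun S => if S = ∅ then 1 else 0

theorem card_flip (S : Finset (Fin M)) (j : Fin M) : S.card ≤ (flip S j).card + 1 := by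
  by_cases h : j ∈ S
  · have : flip S j = S.erase j := by
      ext x
      by_cases hx : x = j
      · subst hx; simp [mem_flip_self, h]
      · simp [mem_flip_ne S hx, hx]
    rw [this, Finset.card_erase_of_mem h]; omega
  · have : S ⊆ flip S j := by
      intro x hx
      rw [mem_flip_ne]
      · exact hx
      · rintro rfl; exact h hx
    have := Finset.card_le_card this
    omega

theorem Fil_deg (l : ℕ) : ∀ {X : Module.End R (Sp M R)}, X ∈ Fil M R l →
    ∀ f : Sp M R, ∀ k : ℕ, (∀ S : Finset (Fin M), k < S.card → f S = 0) →
    ∀ S : Finset (Fin M), k + l < S.card → X f S = 0 := by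
  induction l with
  | zero =>
    intro X hX f k hf S hS
    obtain ⟨a, rfl⟩ := Submodule.mem_span_singleton.1 hX
    simp [hf S (by omega)]
  | succ l ih =>
    intro X hX
    refine Fil_induct (p := fun X => ∀ f : Sp M R, ∀ k : ℕ,
      (∀ S : Finset (Fin M), k < S.card → f S = 0) →
      ∀ S : Finset (Fin M), k + (l + 1) < S.card → X f S = 0) ?_ ?_ ?_ ?_ hX
    · intro Y hY f k hf S hS; exact ih hY f k hf S (by omega)
    · intro c Y hY f k hf S hS
      rw [Module.End.mul_apply, cliff_apply]
      refine Finset.sum_eq_zero fun j _ => ?_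
      have := card_flip S j
      rw [ih hY f k hf _ (by omega), mul_zero]
    · intro X Y h1 h2 f k hf S hS
      rw [LinearMap.add_apply, Pi.add_apply, h1 f k hf S hS, h2 f k hf S hS, add_zero]
    · intro a X h1 f k hf S hS
      rw [LinearMap.smul_apply, Pi.smul_apply, h1 f k hf S hS, smul_zero]

theorem top_zero {l : ℕ} (hl : l < M) {X : Module.End R (Sp M R)} (hX : X ∈ Fil M R l) :
    X vac univ = 0 := by
  refine Fil_deg l hX vac 0 (fun S hS => ?_) univ (by simpa using hl)
  rw [vac, if_neg]
  rintro rfl; simp at hS

/-! ### words -/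

variable {ι : Type}

/-- the operator attached to the word `a` along the list `l` -/
def opA (c : ι → Fin M → Bool → R) (a : ι → Bool) : List ι → Module.End R (Sp M R)
  | [] => 1
  | k :: l => opA c a l * (if a k then cliff (c k) else 1)

/-- the reversed operator -/
def opB (c : ι → Fin M → Bool → R) (b : ι → Bool) : List ι → Module.End R (Sp M R)
  | [] => 1
  | k :: l => (if b k then cliff (c k) else 1) * opB c b l

/-- number of disagreements along a list -/
def dis (a b : ι → Bool) (l : List ι) : ℕ := (l.filter (fun k => a k != b k)).length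

theorem dis_cons_ne {a b : ι → Bool} {k : ι} (l : List ι) (h : a k ≠ b k) :
    dis a b (k :: l) = dis a b l + 1 := by
  have : (a k != b k) = true := by simpa using h
  simp [dis, this]

theorem dis_cons_eq {a b : ι → Bool} {k : ι} (l : List ι) (h : a k = b k) :
    dis a b (k :: l) = dis a b l := by
  have : (a k != b k) = false := by simpa using h
  simp [dis, this]

theorem opBA_mem [CharP R 2] (c : ι → Fin M → Bool → R) (a b : ι → Bool) (l : List ι) :
    opB c b l * opA c a l ∈ Fil M R (dis a b l) := by
  induction l with
  | nil => simpa [opA, opB, dis] using one_mem_Fil (M := M) (R := R) 0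
  | cons k l ih =>
    rw [opA, opB]
    have e : ∀ X Y : Module.End R (Sp M R),
      X * opB c b l * (opA c a l * Y) = X * (opB c b l * opA c a l) * Y := by
      intro X Y; noncomm_ring
    rw [e]
    rcases ha : a k with _ | _ <;> rcases hb : b k with _ | _
    · rw [dis_cons_eq l (by rw [ha, hb])]
      simpa using ih
    · rw [dis_cons_ne l (by rw [ha, hb]; simp)]
      simpa using cliff_mul_mem (c k) ih
    · rw [dis_cons_ne l (by rw [ha, hb]; simp)]
      simpa using mul_cliff_mem (c k) ih
    · rw [dis_cons_eq l (by rw [ha, hb])]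
      simpa using conj_mem (c k) ih

/-- parity of the support -/
theorem cliff_parity (c : Fin M → Bool → R) {f : Sp M R} {p : ℕ}
    (hf : ∀ S : Finset (Fin M), (S.card + p) % 2 = 1 → f S = 0) :
    ∀ S : Finset (Fin M), (S.card + (p + 1)) % 2 = 1 → cliff c f S = 0 := by
  intro S hS
  rw [cliff_apply]
  refine Finset.sum_eq_zero fun j _ => ?_
  have : (flip S j).card + 1 = S.card ∨ (flip S j).card = S.card + 1 := by
    by_cases h : j ∈ S
    · have : flip S j = S.erase j := by
        ext x
        by_cases hx : x = j
        · subst hx; simp [mem_flip_self, h]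
        · simp [mem_flip_ne S hx, hx]
      rw [this, Finset.card_erase_of_mem h]
      have := Finset.card_pos.2 ⟨j, h⟩
      omega
    · have : flip S j = insert j S := by
        ext x
        by_cases hx : x = j
        · subst hx; simp [mem_flip_self, h]
        · simp [mem_flip_ne S hx, hx]
      rw [this, Finset.card_insert_of_notMem h]
      omega
  rw [hf _ (by omega), mul_zero]

theorem opA_parity (c : ι → Fin M → Bool → R) (a : ι → Bool) (l : List ι) :
    ∀ (f : Sp M R) (p : ℕ), (∀ S : Finset (Fin M), (S.card + p) % 2 = 1 → f S = 0) →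
    ∀ S : Finset (Fin M), (S.card + (p + (l.filter (fun k => a k)).length)) % 2 = 1 →
      opA c a l f S = 0 := by
  induction l with
  | nil => intro f p hf S hS; exact hf S (by simpa using hS)
  | cons k l ih =>
    intro f p hf S hS
    rw [opA, Module.End.mul_apply]
    rcases ha : a k with _ | _
    · simp only [Bool.false_eq_true, if_false, Module.End.one_apply]
      refine ih f p hf S ?_
      simpa [List.filter_cons, ha] using hS
    · simp only [if_true]
      refine ih _ (p + 1) (cliff_parity (c k) hf) S ?_
      rw [List.filter_cons, ha] at hS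
      simp only [if_true, List.length_cons] at hS
      omega

/-! ### specialisation -/

theorem cliff_map {R' : Type} [CommRing R'] (φ : R →+* R') (c : Fin M → Bool → R) (f : Sp M R)
    (S : Finset (Fin M)) :
    φ (cliff c f S) = cliff (fun j b => φ (c j b)) (fun T => φ (f T)) S := by
  rw [cliff_apply, cliff_apply, map_sum]
  simp

theorem opA_map {R' : Type} [CommRing R'] (φ : R →+* R') (c : ι → Fin M → Bool → R)
    (a : ι → Bool) (l : List ι) : ∀ (f : Sp M R) (S : Finset (Fin M)),
    φ (opA c a l f S) = opA (fun k j b => φ (c k j b)) a l (fun T => φ (f T)) S := by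
  induction l with
  | nil => intro f S; rfl
  | cons k l ih =>
    intro f S
    rw [opA, opA, Module.End.mul_apply, Module.End.mul_apply, ih]
    have key : (fun T => φ ((if a k = true then cliff (c k) else 1 : Module.End R (Sp M R)) f T)) =
        (if a k = true then cliff (fun j b => φ (c k j b)) else 1 : Module.End R' (Sp M R'))
          (fun T => φ (f T)) := by
      funext T
      rcases a k with _ | _
      · simp
      · simpa using cliff_map φ (c k) f T
    rw [key]

theorem opB_map {R' : Type} [CommRing R'] (φ : R →+* R') (c : ι → Fin M → Bool → R)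
    (b : ι → Bool) (l : List ι) : ∀ (f : Sp M R) (S : Finset (Fin M)),
    φ (opB c b l f S) = opB (fun k j b => φ (c k j b)) b l (fun T => φ (f T)) S := by
  induction l with
  | nil => intro f S; rfl
  | cons k l ih =>
    intro f S
    rw [opB, opB, Module.End.mul_apply, Module.End.mul_apply]
    rcases b k with _ | _
    · simp only [Bool.false_eq_true, if_false, Module.End.one_apply]
      exact ih f S
    · simp only [if_true]
      rw [cliff_map]
      have key : (fun T => φ ((opB c b l) f T)) =
          (opB (fun k j b => φ (c k j b)) b l) (fun T => φ (f T)) := funext fun T => ih f T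
      rw [key]

theorem vac_map {R' : Type} [CommRing R'] (φ : R →+* R') :
    (fun T => φ ((vac : Sp M R) T)) = (vac : Sp M R') := by
  funext T
  rw [vac, vac]
  split_ifs <;> simp

/-- the special vectors -/
def spec (R : Type) [CommRing R] (π : ι → Fin M) (k : ι) (j : Fin M) (_ : Bool) : R :=
  if j = π k then 1 else 0

theorem cliff_spec (π : ι → Fin M) (k : ι) (f : Sp M R) (S : Finset (Fin M)) :
    cliff (spec R π k) f S = f (flip S (π k)) := by
  rw [cliff_apply, Finset.sum_eq_single (π k)]
  · simp [spec]
  · intro j _ hj; simp [spec, hj]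
  · intro h; exact absurd (Finset.mem_univ _) h

/-- iterated flips -/
def fl (π : ι → Fin M) (a b : ι → Bool) : List ι → Finset (Fin M) → Finset (Fin M)
  | [], S => S
  | k :: l, S => if a k != b k then flip (fl π a b l S) (π k) else fl π a b l S

theorem fl_flip (π : ι → Fin M) (a b : ι → Bool) (l : List ι) (S : Finset (Fin M)) (j : Fin M) :
    fl π a b l (flip S j) = flip (fl π a b l S) j := by
  induction l with
  | nil => rfl
  | cons k l ih =>
    rw [fl, fl, ih]
    split_ifs
    · rw [flip_comm]
    · rfl

theorem spec_eval (π : ι → Fin M) (a b : ι → Bool) (l : List ι) : ∀ (f : Sp M R)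
    (S : Finset (Fin M)),
    (opB (spec R π) b l * opA (spec R π) a l) f S = f (fl π a b l S) := by
  induction l with
  | nil => intro f S; rfl
  | cons k l ih =>
    intro f S
    rw [opA, opB]
    have e : ∀ X Y : Module.End R (Sp M R),
      X * opB (spec R π) b l * (opA (spec R π) a l * Y) =
        X * (opB (spec R π) b l * opA (spec R π) a l) * Y := by
      intro X Y; noncomm_ring
    rw [e, fl]
    rcases ha : a k with _ | _ <;> rcases hb : b k with _ | _
    · simpa using ih f S
    · simp only [if_true, Bool.false_eq_true, if_false, mul_one, Module.End.mul_apply]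
      rw [cliff_spec, ← Module.End.mul_apply, ih, fl_flip]
      simp
    · simp only [if_true, Bool.false_eq_true, if_false, one_mul]
      rw [Module.End.mul_apply, ih, cliff_spec]
      simp
    · simp only [if_true]
      rw [Module.End.mul_apply, Module.End.mul_apply, cliff_spec, ih, cliff_spec, fl_flip,
        flip_flip]
      simp

theorem mem_fl (π : ι → Fin M) (a b : ι → Bool) (l : List ι) (S : Finset (Fin M)) (j : Fin M) :
    j ∈ fl π a b l S ↔
      ((l.filter (fun k => (a k != b k) && decide (π k = j))).length % 2 = 1 ↔ j ∉ S) := by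
  induction l with
  | nil => simp [fl]
  | cons k l ih =>
    rw [fl, List.filter_cons]
    rcases hab : (a k != b k) with _ | _
    · simpa using ih
    · simp only [if_true, Bool.true_and]
      by_cases hj : π k = j
      · subst hj
        rw [mem_flip_self, ih]
        simp only [decide_true, if_true, List.length_cons]
        have : ∀ n : ℕ, (n + 1) % 2 = 1 ↔ ¬ n % 2 = 1 := by intro n; omega
        rw [this]
        tauto
      · rw [mem_flip_ne _ (Ne.symm hj), ih]
        simp [hj]

end ops

end Pool.Agent.V11212.Col
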