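import Pool.Agent.V11212.HC.Dbl
import Pool.Agent.V11212.Col.Bound
import Pool.Agent.V11212.Col.Collapse

/-!
Vanishing of the reduced homology of clique complexes above the length of the skew systems.
-/

namespace Pool.Agent.V11212.Col

open Finset Pool.Agent.V11212.HC

variable {V : Type} [Fintype V] [DecidableEq V] {k : Type} [CommRing k] {o : V → ℕ}

/-- cone operator -/
def cone (o : V → ℕ) (v : V) (c : Finset V → k) (s : Finset V) : k :=
  if v ∈ s then sg k o (s.erase v) v * c (s.erase v) else 0

theorem bd_zero (T : Finset V) : bd (k := k) o 0 T = 0 := by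
  rw [bd]; simp

theorem bd_bd (ho : Function.Injective o) (F : Finset V → k) : bd o (bd o F) = 0 := by
  classical
  have hA : Adm (fun (_ _ : Finset V) => True) :=
    ⟨fun _ _ _ _ _ _ _ _ => trivial, fun _ _ _ _ _ => trivial, fun _ _ _ _ _ _ => trivial⟩
  have h := DB_DB (o := o) ho hA (F := fun s _ => F s) (fun s z h => absurd trivial h)
  funext s
  have h2 := congrFun (congrFun h s) ∅
  rw [DB, if_pos trivial] at h2
  have e : (fun t => DB o (fun (_ _ : Finset V) => True) (fun s _ => F s) t ∅) = bd o F := by
    funext t
    rw [DB, if_pos trivial]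
  rw [e] at h2
  exact h2

theorem cone_formula (ho : Function.Injective o) (v : V) (F : Finset V → k) (s : Finset V) :
    bd o (cone o v F) s + cone o v (bd o F) s = F s := by
  classical
  have h := (col_exact (o := o) ho (P := fun (_ _ : Finset V) => True) (c := fun _ => v)
    (fun _ _ _ _ => ⟨trivial, trivial⟩) (F := fun s z => if z = {v} then F s else 0)
    (fun s z h => absurd trivial h) (fun s => by
      rw [if_neg]
      intro h
      exact absurd h.symm (Finset.singleton_ne_empty v))).2
  have h2 := congrFun (congrFun h s) {v}
  rw [Pi.add_apply, Pi.add_apply, DB, if_pos trivial, if_pos rfl] at h2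
  have e1 : (fun t => hB o (fun _ => v) (fun s z => if z = {v} then F s else 0) t {v}) =
      cone o v F := by
    funext t
    rw [hB, cone]
    simp
  have e2 : hB o (fun _ => v) (DB o (fun (_ _ : Finset V) => True)
      (fun s z => if z = {v} then F s else 0)) s {v} = cone o v (bd o F) s := by
    rw [hB, cone]
    simp only [Finset.singleton_nonempty, true_and]
    split_ifs
    · rw [DB, if_pos trivial]
      simp
    · rfl
  rw [e1, e2] at h2
  exact h2

/-- supported on the faces with `m` elements -/
def On (K : Set (Finset V)) (m : ℕ) (z : Finset V → k) : Prop :=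
  ∀ s, z s ≠ 0 → s ∈ K ∧ s.card = m

theorem vanish (ho : Function.Injective o) (G : SimpleGraph V) [DecidableRel G.Adj] (n : ℕ) :
    ∀ (A : Finset V), A.card = n → ∀ d : ℕ, (∀ t, Skew G A t → t ≤ d) →
      ∀ m, d < m → ∀ z : Finset V → k, On (cl G A) m z → bd o z = 0 →
        ∃ w : Finset V → k, On (cl G A) (m + 1) w ∧ bd o w = z := by
  classical
  induction n using Nat.strong_induction_on with
  | _ n ih =>
  intro A hA d hd m hm z hz hbz
  by_cases hcomp : ∀ x ∈ A, ∀ y ∈ A, x ≠ y → G.Adj x y
  · have hcl : ∀ s : Finset V, s ⊆ A → s ∈ cl G A := fun s h =>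
      ⟨h, fun x hx y hy hxy => hcomp x (h hx) y (h hy) hxy⟩
    rcases A.eq_empty_or_nonempty with rfl | ⟨v, hv⟩
    · refine ⟨0, fun s h => absurd rfl h, ?_⟩
      funext s
      rw [bd_zero]
      by_contra h
      obtain ⟨h1, h2⟩ := hz s (Ne.symm h)
      have := Finset.subset_empty.1 h1.1
      rw [this] at h2
      simp at h2
      omega
    · refine ⟨cone o v z, fun s hs => ?_, ?_⟩
      · rw [cone] at hs
        split_ifs at hs with h
        · obtain ⟨h1, h2⟩ := hz _ (right_ne_zero_of_mul hs)
          rw [Finset.card_erase_of_mem h] at h2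
          have := Finset.card_pos.2 ⟨v, h⟩
          refine ⟨hcl s fun x hx => ?_, by omega⟩
          by_cases hxv : x = v
          · rw [hxv]; exact hv
          · exact h1.1 (Finset.mem_erase.2 ⟨hxv, hx⟩)
        · exact absurd rfl hs
      · funext s
        have h := cone_formula (o := o) ho v z s
        have h0 : cone o v (bd o z) s = 0 := by
          rw [hbz, cone]; split_ifs <;> simp
        rw [h0, add_zero] at h
        exact h
  · push Not at hcomp
    obtain ⟨v, hv, w, hw, hne, hadj⟩ := hcomp
    have hsub : A.filter (fun x => G.Adj v x) ⊆ A := Finset.filter_subset _ _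
    have hvn : v ∉ A.filter (fun x => G.Adj v x) := by simp
    have hcard : (A.filter (fun x => G.Adj v x)).card < n := by
      rw [← hA]
      exact Finset.card_lt_card ⟨hsub, fun h => hvn (h hv)⟩
    have hcard2 : (A.erase v).card < n := by
      rw [← hA]
      exact Finset.card_erase_lt_of_mem hv
    rcases d with _ | d
    · exfalso
      have S0 : Skew G (∅ : Finset V) 0 :=
        ⟨Fin.elim0, Fin.elim0, fun i => i.elim0, fun i => i.elim0, fun i => i.elim0,
          fun i => i.elim0, fun i => i.elim0, fun i => i.elim0⟩
      have := hd 1 (S0.cons (Finset.empty_subset A) v w hv hw hne hadj (by simp))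
      omega
    · obtain ⟨m, rfl⟩ : ∃ m', m = m' + 1 := ⟨m - 1, by omega⟩
      -- the link part
      let b : Finset V → k := fun s => if v ∈ s then 0 else sg k o s v * z (insert v s)
      let a : Finset V → k := fun s => if v ∈ s then 0 else z s
      have hz_eq : ∀ s, z s = a s + cone o v b s := by
        intro s
        simp only [a, cone, b]
        by_cases h : v ∈ s
        · rw [if_pos h, if_pos h, if_neg (Finset.notMem_erase v s), Finset.insert_erase h,
            ← mul_assoc, sg_mul_self, one_mul, zero_add]
        · rw [if_neg h, if_neg h, add_zero]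
      have hz_eq' : z = a + cone o v b := funext hz_eq
      have hb_v : ∀ s, v ∈ s → b s = 0 := fun s h => if_pos h
      have ha_v : ∀ s, v ∈ s → a s = 0 := fun s h => if_pos h
      have hbd_v : ∀ F : Finset V → k, (∀ s, v ∈ s → F s = 0) → ∀ s, v ∈ s → bd o F s = 0 := by
        intro F hF s hs
        rw [bd]
        refine Finset.sum_eq_zero fun w _ => ?_
        split_ifs
        · rfl
        · rw [hF _ (Finset.mem_insert_of_mem hs), mul_zero]
      have hbdb : bd o b = 0 := by
        funext t
        by_cases ht : v ∈ t
        · exact hbd_v b hb_v t ht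
        · have h1 := congrFun hbz (insert v t)
          rw [hz_eq', bd_add, hbd_v a ha_v _ (Finset.mem_insert_self v t), zero_add] at h1
          have h2 := cone_formula (o := o) ho v b (insert v t)
          rw [h1, hb_v _ (Finset.mem_insert_self v t)] at h2
          rw [Pi.zero_apply, zero_add, cone, if_pos (Finset.mem_insert_self v t),
            Finset.erase_insert ht] at h2
          have h3 := congrArg (fun x => sg k o t v * x) h2
          simp only [← mul_assoc, sg_mul_self, one_mul, mul_zero] at h3
          exact h3
      have hbOn : On (cl G (A.filter (fun x => G.Adj v x))) m b := by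
        intro s hs
        simp only [b] at hs
        split_ifs at hs with h
        · exact absurd rfl hs
        · obtain ⟨h1, h2⟩ := hz _ (right_ne_zero_of_mul hs)
          rw [Finset.card_insert_of_notMem h] at h2
          refine ⟨⟨fun x hx => Finset.mem_filter.2 ⟨h1.1 (Finset.mem_insert_of_mem hx), ?_⟩, ?_⟩,
            by omega⟩
          · exact h1.2 (Finset.mem_insert_self v s) (Finset.mem_insert_of_mem hx)
              (fun e => h (e ▸ hx))
          · exact h1.2.subset (by simp)
      obtain ⟨c, hcOn, hc⟩ := ih _ hcard _ rfl d (fun t S => by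
        have := hd (t + 1) (S.cons hsub v w hv hw hne hadj
          (fun z hz => (Finset.mem_filter.1 hz).2))
        omega) m (by omega) b hbOn hbdb
      have hcv : ∀ s, v ∈ s → c s = 0 := by
        intro s hs
        by_contra h
        exact hvn ((hcOn s h).1.1 hs)
      -- the remaining cycle
      have hz' : bd o (a + c) = 0 := by
        have e : a + c = z + bd o (cone o v c) := by
          funext s
          have h := cone_formula (o := o) ho v c s
          rw [hc] at h
          rw [Pi.add_apply, Pi.add_apply, hz_eq s, ← h]
          ring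
        rw [e]
        funext s
        rw [bd_add, hbz, bd_bd ho]
        simp
      have hOn' : On (cl G (A.erase v)) (m + 1) (a + c) := by
        intro s hs
        have hcase : a s ≠ 0 ∨ c s ≠ 0 := by
          by_contra h
          push Not at h
          apply hs
          rw [Pi.add_apply, h.1, h.2, add_zero]
        rcases hcase with h | h
        · have hvs : v ∉ s := fun hh => h (ha_v s hh)
          have h1 : z s ≠ 0 := by
            intro h0; apply h; simp only [a]; rw [if_neg hvs, h0]
          obtain ⟨h2, h3⟩ := hz s h1
          exact ⟨⟨fun x hx => Finset.mem_erase.2 ⟨fun e => hvs (e ▸ hx), h2.1 hx⟩, h2.2⟩, h3⟩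
        · have hvs : v ∉ s := fun hh => h (hcv s hh)
          obtain ⟨h2, h3⟩ := hcOn s h
          exact ⟨⟨fun x hx => Finset.mem_erase.2 ⟨fun e => hvs (e ▸ hx), hsub (h2.1 hx)⟩,
            h2.2⟩, h3⟩
      obtain ⟨e, heOn, he⟩ := ih _ hcard2 _ rfl (d + 1) (fun t S =>
        hd t (S.mono (Finset.erase_subset v A))) (m + 1) hm (a + c) hOn' hz'
      refine ⟨fun s => e s + (-(cone o v c)) s, fun s hs => ?_, ?_⟩
      · have hcase : e s ≠ 0 ∨ cone o v c s ≠ 0 := by
          by_contra h
          push Not at h
          apply hs
          simp only [Pi.neg_apply]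
          rw [h.1, h.2, neg_zero, add_zero]
        rcases hcase with h | h
        · obtain ⟨h1, h2⟩ := heOn s h
          exact ⟨⟨h1.1.trans (Finset.erase_subset v A), h1.2⟩, h2⟩
        · rw [cone] at h
          split_ifs at h with hvs
          · obtain ⟨h1, h2⟩ := hcOn _ (right_ne_zero_of_mul h)
            rw [Finset.card_erase_of_mem hvs] at h2
            have hpos := Finset.card_pos.2 ⟨v, hvs⟩
            have h3 : s ∈ glue v (cl G (A.erase v)) (cl G (A.filter (fun x => G.Adj v x))) :=
              Or.inr ⟨s.erase v, h1, Finset.insert_erase hvs⟩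
            rw [← cl_glue G hv] at h3
            exact ⟨h3, by omega⟩
          · exact absurd rfl h
      · funext s
        have h1 := bd_add (o := o) e (-(cone o v c)) s
        have h2 := bd_neg (o := o) (cone o v c) s
        have h3 := cone_formula (o := o) ho v c s
        rw [hc] at h3
        have h4 : bd o (fun s => e s + (-(cone o v c)) s) s = bd o (e + -(cone o v c)) s := rfl
        rw [h4, h1, h2, he, Pi.add_apply, hz_eq s, ← h3]
        ring

end Pool.Agent.V11212.Col
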